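import Pool.Agent.Run7.h51.DiscFree

/-!
MP_7b119f_an, Q1 and Q2, negative answer. There is one countable totally bounded discrete metric
space `M` such that for all `p` in `(0, 1]` the Lipschitz free `p`-space over `M` fails the
approximation property. More generally the free `p`-spaces of an arbitrary metric space `K` are
complemented in those of one discrete metric space.
-/

set_option autoImplicit false

open Pool.Agent.H548R3.PFree Pool.Agent.Y53.FP Pool.Agent.Run7.h51.DiscFree

namespace Pool.Agent.Results.MP_7b119f_an.DiscreteNoAP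

/-- **MP_7b119f_an, Q1 and Q2 (negative).** -/
theorem result :
    (∃ (M : Type) (_ : MetricSpace M), Countable M ∧ IsDiscr M ∧
      TotallyBounded (Set.univ : Set M) ∧
      ∀ (o : M) (p : ℝ), 0 < p → p ≤ 1 → FreeFailsAP p M o) ∧
    ∀ (K : Type) [MetricSpace K], ∃ D : Set (K × ℝ), IsDiscr D ∧
      ∀ p : ℝ, 0 < p → p ≤ 1 → ∀ (k : K) (o : D)
        (Y : Type) [NormedAddCommGroup Y] [Module ℝ Y] (η : K → Y),
        IsLipschitzFree p K k Y η →
        ∀ (Z : Type) [NormedAddCommGroup Z] [Module ℝ Z] (δ : D → Z),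
        IsLipschitzFree p D o Z δ →
        ∃ (R : Y →L[ℝ] Z) (S : Z →L[ℝ] Y), (∀ y, S (R y) = y) ∧
          (∀ y, pnorm p (R y) = pnorm p y) ∧ ∀ z, pnorm p (S z) ≤ pnorm p z := by
  refine ⟨exists_fails, fun K _ => ?_⟩
  obtain ⟨D, -, hD2, hD3⟩ := exists_discrete K
  refine ⟨D, fun x => ?_, fun p h0 h1 k o Y _ _ η hY Z _ _ δ hZ =>
    exists_retract D hD3 p h0 h1 k o Y η hY Z δ hZ⟩
  obtain ⟨r, hr, h⟩ := hD2 x.1 x.2
  exact ⟨r, hr, fun y hy => Subtype.ext (h y.1 y.2 hy)⟩

end Pool.Agent.Results.MP_7b119f_an.DiscreteNoAP
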